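import Pool.Agent.Lib.MP_2d211a_co.H62Main

namespace Pool.Agent.Lib.MP_2d211a_co.Old.NormalPlane

open Pool.Agent.Lib.MP_2d211a_co

theorem result (p : ℕ) (hp : p.Prime) (E : Type) [Group E] [Finite E] (hE : IsPGroup p E)
    (V : Subgroup E) [V.Normal] (hV : Nonempty (V ≃* Multiplicative (ZMod p × ZMod p)))
    (hZ : ¬V ≤ Subgroup.center E) (hq : ¬IsCyclic (E ⧸ V)) :
    ∃ R : Set E, IsSemiregularRDS (V ⊓ Subgroup.center E) R := by
  have := Fact.mk hp
  obtain ⟨e⟩ := hV
  refine H62.plane_rds hE V (by rw [Nat.card_congr e.toEquiv]; simp [sq]) (fun v hv => ?_) hZ hq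
  have : (⟨v, hv⟩ : V) ^ p = 1 := e.injective (by
    rw [map_pow, map_one]
    apply Multiplicative.toAdd.injective
    ext <;> simp)
  exact congrArg Subtype.val this

end Pool.Agent.Lib.MP_2d211a_co.Old.NormalPlane
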