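import Pool.Agent.Lib.MP_2d211a_co.H62Prod

namespace Pool.Agent.Results.MP_2d211a_co.OddExponentBound

open Pool.Agent.Lib.MP_2d211a_co

theorem result (p k : ℕ) (hp : p.Prime) (hp2 : p ≠ 2) (E : Type) [Group E] [Finite E]
    (N S K : Subgroup E) (hN : N ≤ Subgroup.center E) (hc : Nat.card N = p) (hNE : N ≠ ⊤)
    (hI : S ⊓ K = N) (hSK : ∀ g : E, ∃ a ∈ S, ∃ b ∈ K, a * b = g)
    (hS : Monoid.exponent S ∣ p) (hK : Nat.card K = p ^ (2 * k + 1))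
    (hKe : Monoid.exponent K ∣ p ^ (k + 1)) :
    ∃ R : Set E, IsSemiregularRDS N R := by
  have := Fact.mk hp
  have h2 : 2 < p := lt_of_le_of_ne hp.two_le hp2.symm
  obtain ⟨z, hz, rfl⟩ := H62.cen_of_card hN hc
  have hzSK : z ∈ S ⊓ K := hI ▸ Subgroup.mem_zpowers z
  rw [Monoid.exponent_dvd_iff_forall_pow_eq_one] at hS hKe
  obtain ⟨n, hn⟩ := IsPGroup.exists_card_eq (p := p) (G := S) fun y => ⟨1, by simpa using hS y⟩
  obtain ⟨m, X, hX⟩ := H62.exp_good h2 n S hn hS _ (hz.sub hzSK.1)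
  obtain ⟨Y, hY⟩ := H62.odd_good h2 k K hK hKe _ (hz.sub hzSK.2)
  obtain ⟨l, Z, hZ⟩ := H62.good_prod hz hzSK.1 hzSK.2 hI.le hSK hX hY
  refine hZ.isRDS hz (hc ▸ lt_of_le_of_ne (Subgroup.card_le_card_group _) fun h => ?_)
  exact hNE (Subgroup.eq_top_of_card_eq _ h)

end Pool.Agent.Results.MP_2d211a_co.OddExponentBound
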