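import Pool.Agent.Lib.MP_2d211a_co.H8Mod4

namespace Pool.Agent.Results.MP_2d211a_co.OrderTwoModFour

open Pool.Agent.Lib.MP_2d211a_co

theorem result (E : Type*) [Group E] (h : Nat.card E % 4 = 2) : ¬ ContainsSemiregularRDS E := by
  classical
  have : Finite E := Nat.finite_of_card_ne_zero (by omega)
  have := Fintype.ofFinite E
  rintro ⟨N, R, hR⟩
  exact H8.not_contains (by rwa [← Nat.card_eq_fintype_card]) N R hR

end Pool.Agent.Results.MP_2d211a_co.OrderTwoModFour
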