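import Pool.Agent.Lib.MP_2d211a_co.H31Pow

namespace Pool.Agent.Results.MP_2d211a_co.SylowPower

open Pool.Agent.Lib.MP_2d211a_co

theorem result {E : Type} [Group E] [Finite E] (N : Subgroup E) (R : Set E)
    (h : IsSemiregularRDS N R) (hE : IsEmpty (E ≃* Multiplicative (ZMod 4)))
    (p : ℕ) (hp : p.Prime) (P : Sylow p E) (x : E) (hx : x ∈ P) :
    x ^ R.ncard ∈ ⁅N ⊓ (P : Subgroup E), (P : Subgroup E)⁆ := by
  have := h.1
  have := Fact.mk hp
  have hR : R.ncard = N.index := by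
    have h1 := h.2.1
    exact Nat.eq_of_mul_eq_mul_right (by omega) (h.2.2.2.1.trans N.index_mul_card.symm)
  obtain ⟨D⟩ := H31.exists_data h
  have h1 : (⟨x, hx⟩ : P) ^ N.index ∈ ⁅N.subgroupOf P, (⊤ : Subgroup P)⁆ := by
    by_contra hc
    exact hE.false (D.sylow_pow P ⟨x, hx⟩ hc).some
  have h2 := Subgroup.mem_map_of_mem (P : Subgroup E).subtype h1
  rw [Subgroup.map_commutator, Subgroup.subgroupOf_map_subtype, ← MonoidHom.range_eq_map,
    Subgroup.range_subtype] at h2
  rw [hR]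
  exact h2

end Pool.Agent.Results.MP_2d211a_co.SylowPower
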